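import Pool.Agent.H57.AR.Targets

/-!
# Board `ar_modules`, row MINR: two local maps with complementary equalities
-/

set_option autoImplicit false

namespace Pool.Agent.H6.AR

open Pool.Agent.H68.BP Pool.Agent.H58.SF Pool.Agent.H53.GC Pool.Agent.H53.NR Pool.Agent.H53.GR
open Pool.Agent.H57.AR
open Pool.Agent.H57.SO (Pal Col vt Exa Sb FBl Sbn Bh fib sigF Same Uni Can Stp)
open Pool.Agent.H44.SO (ZS JS Loc OfT LInj sig0 str0 B2)
open Pool.Agent.H44.EQ (BinPol sel kap)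
open Pool.Agent.H57.EQ (Cx)
open Function
open Classical

theorem pf_MINR : T_MINR := by
  intro σ V S X P 𝔸 c s hI
  unfold LInj at hI
  push Not at hI
  obtain ⟨n, q, hq, hγ⟩ := hI
  have hp1 : Loc P 𝔸 c q fun p => q p.1 :=
    ⟨fun l a b ha _ => ha, fun a b _ => rfl, fun a b a' b' _ _ _ h _ he => h (hq he)⟩
  have hp2 : Loc P 𝔸 c q fun p => q p.2 :=
    ⟨fun l a b _ hb => hb, fun a b h => h.symm, fun a b a' b' _ _ _ _ h he => h (hq he)⟩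
  obtain ⟨good, hgood⟩ : ∃ good : Finset ((Fin n × Fin n) × (Fin n × Fin n)) → Prop,
      ∀ U, good U ↔ ∃ γ, Loc P 𝔸 c q γ ∧ ∀ u ∈ U, γ u.1 ≠ γ u.2 := ⟨_, fun _ => Iff.rfl⟩
  obtain ⟨Q, hQ⟩ : ∃ Q : Set (Finset ((Fin n × Fin n) × (Fin n × Fin n))),
      ∀ U, U ∈ Q ↔ (∀ u ∈ U, (OfT P c q s u.1 ∧ OfT P c q s u.2) ∧ u.1 ≠ u.2) ∧ ¬ good U :=
    ⟨{U | (∀ u ∈ U, (OfT P c q s u.1 ∧ OfT P c q s u.2) ∧ u.1 ≠ u.2) ∧ ¬ good U}, fun _ => Iff.rfl⟩
  have hne : Q.Nonempty := by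
    refine ⟨Finset.univ.filter fun u => (OfT P c q s u.1 ∧ OfT P c q s u.2) ∧ u.1 ≠ u.2,
      (hQ _).2 ⟨fun u hu => ?_, fun h => ?_⟩⟩
    · exact (Finset.mem_filter.1 hu).2
    · obtain ⟨γ, h1, h2⟩ := (hgood _).1 h
      obtain ⟨p, p', hp, hp', he, hne⟩ := hγ γ h1
      exact h2 (p, p') (Finset.mem_filter.2 ⟨Finset.mem_univ _, ⟨hp, hp'⟩, hne⟩) he
  obtain ⟨U, hU, hmin⟩ := WellFounded.has_min
    (wellFounded_lt (α := Finset ((Fin n × Fin n) × (Fin n × Fin n)))) Q hne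
  obtain ⟨hU1, hU2⟩ := (hQ U).1 hU
  have hsub : ∀ U', U' ⊂ U → good U' := by
    intro U' h
    by_contra hg
    exact hmin U' ((hQ _).2 ⟨fun u hu => hU1 u (h.1 hu), hg⟩) h
  have hne' : U.Nonempty := by
    rw [Finset.nonempty_iff_ne_empty]
    rintro rfl
    exact hU2 ((hgood _).2 ⟨_, hp1, fun u hu => absurd hu (Finset.notMem_empty u)⟩)
  rcases hne'.exists_eq_singleton_or_nontrivial with ⟨u, hu⟩ | hnt
  · exfalso
    apply hU2
    rw [hgood, hu]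
    have h1 : u.1 ≠ u.2 := (hU1 u (by rw [hu]; exact Finset.mem_singleton_self u)).2
    by_cases h2 : u.1.1 = u.2.1
    · refine ⟨_, hp2, fun u' hu' h3 => h1 (Prod.ext h2 ?_)⟩
      rw [Finset.mem_singleton.1 hu'] at h3
      exact hq h3
    · refine ⟨_, hp1, fun u' hu' h3 => h2 ?_⟩
      rw [Finset.mem_singleton.1 hu'] at h3
      exact hq h3
  · obtain ⟨u0, h0, u1, h1, h01⟩ := hnt
    obtain ⟨γ0, hb0, hs0⟩ := (hgood _).1 (hsub (U.erase u0) (Finset.erase_ssubset h0))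
    obtain ⟨γ1, hb1, hs1⟩ := (hgood _).1 (hsub (U.erase u1) (Finset.erase_ssubset h1))
    refine ⟨n, q, γ0, γ1, u0.1, u0.2, u1.1, u1.2, (U : Set _), hq, hb0, hb1, ?_, ?_, ?_, ?_, ?_, ?_⟩
    · by_contra hcon
      refine hU2 ((hgood _).2 ⟨γ0, hb0, fun u hu => ?_⟩)
      by_cases h : u = u0
      · rw [h]; exact hcon
      · exact hs0 u (Finset.mem_erase.2 ⟨h, hu⟩)
    · exact hs1 u0 (Finset.mem_erase.2 ⟨h01, h0⟩)
    · by_contra hcon
      refine hU2 ((hgood _).2 ⟨γ1, hb1, fun u hu => ?_⟩)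
      by_cases h : u = u1
      · rw [h]; exact hcon
      · exact hs1 u (Finset.mem_erase.2 ⟨h, hu⟩)
    · exact hs0 u1 (Finset.mem_erase.2 ⟨fun h => h01 h.symm, h1⟩)
    · intro γ hγb
      by_contra hcon
      push Not at hcon
      exact hU2 ((hgood _).2 ⟨γ, hγb, fun u hu => hcon u (Finset.mem_coe.2 hu)⟩)
    · intro u hu
      refine ⟨(hU1 u (Finset.mem_coe.1 hu)).1.1, (hU1 u (Finset.mem_coe.1 hu)).1.2, ?_⟩
      by_cases h : u = u0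
      · exact Or.inl h
      by_cases h' : u = u1
      · exact Or.inr (Or.inl h')
      exact Or.inr (Or.inr ⟨hs0 u (Finset.mem_erase.2 ⟨h, Finset.mem_coe.1 hu⟩),
        hs1 u (Finset.mem_erase.2 ⟨h', Finset.mem_coe.1 hu⟩)⟩)

end Pool.Agent.H6.AR
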